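import Pool.Agent.TH603.ED.Defs
import Pool.Agent.TH603.EL.Van2
import Pool.Agent.TH603.EL.Van3

/-! The key lemma for the surfaces of degree `δ`, from the leading term of the tube. -/

set_option autoImplicit false

namespace Pool.Agent.TH889.ED

open Pool.Agent.TH603.EL Pool.Agent.TH603.ED MvPolynomial

/-- the leading term on the tube (`tub_lead`) -/
def S_lead : Prop := ∀ (F : Type) [Field F] [CharZero F] {δ d : ℕ}, 2 ≤ δ → ∀ {τ : ℝ}, 0 < τ →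
    τ < 1 → ∀ {f : (ℤ × ℤ) →₀ HK F},
    (∀ m ∈ f.support, 0 ≤ m.1 ∧ 0 ≤ m.2 ∧ m.1 + δ * m.2 ≤ δ * d) → f ≠ 0 →
    ∀ {s : ℝ}, 8 * δ * d + 8 < s →
    ∃ c : ℝ, (ev (tub F τ s) (hom (δ * d) f)).coeff c ≠ 0 ∧
      ∀ i j : ℤ, cf (ev (tub F τ s) (hom (δ * d) f)) c i j ≠ 0 →
        0 ≤ j ∧ -(δ * ((d : ℝ) - 2 * j) * (1 + τ)) ≤ (i : ℝ) + j ∧
          (i : ℝ) + j ≤ δ * ((d : ℝ) - 2 * j) * (1 - τ)

/-- the coordinates of the points of the tube do not vanish (`evp_tub`) -/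
def S_evp : Prop := ∀ (F : Type) [Field F] {x y : F} (hx : x ≠ 0) (hy : y ≠ 0) {τ s : ℝ}, 0 < τ →
    τ < 1 → 1 ≤ s → ∀ l : ZMod 3, evp hx hy (tub F τ s l) ≠ 0

open Pool.Agent.TH176.Nag in
theorem key2 (hlead : S_lead) (hevp : S_evp) {ι : Type} {w : ι → ℕ} {δ d : ℕ} (hδ : 2 ≤ δ)
    {τ : ℝ} (h0 : 0 < τ) (h1 : τ < 1)
    (h : Emp w (Reg (-(δ * (d : ℝ) * (1 + τ))) (δ * (d : ℝ) * (1 - τ))
      (2 * δ * (1 + τ)) (2 * δ * (1 - τ)))) :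
    Emp w {m : ℤ × ℤ | 0 ≤ m.1 ∧ 0 ≤ m.2 ∧ m.1 + δ * m.2 ≤ δ * (d : ℤ)} := by
  have h' : Emp w {m : ℤ × ℤ | ((m.1 + m.2, m.2) : ℤ × ℤ) ∈
      Reg (-(δ * (d : ℝ) * (1 + τ))) (δ * (d : ℝ) * (1 - τ))
        (2 * δ * (1 + τ)) (2 * δ * (1 - τ))} := by
    refine h.comap 1 1 0 1 0 0 (by norm_num) ?_
    intro m hm
    have e : ((1 * m.1 + 1 * m.2 + 0, 0 * m.1 + 1 * m.2 + 0) : ℤ × ℤ) = (m.1 + m.2, m.2) := by
      ext <;> simp
    rw [e]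
    exact hm
  obtain ⟨F, _, _, x, y, hx, hy, hE⟩ := h'
  obtain ⟨s, hs⟩ : ∃ s : ℝ, s = 8 * (δ : ℝ) * d + 9 := ⟨_, rfl⟩
  have hδd : (0 : ℝ) ≤ 8 * (δ : ℝ) * d := by positivity
  have hs1 : 8 * (δ : ℝ) * d + 8 < s := by rw [hs]; linarith
  have hs2 : 1 ≤ s := by rw [hs]; linarith
  have hchar : CharZero (HK F) :=
    charZero_of_injective_ringHom (f := (HahnSeries.C : F →+* HK F)) HahnSeries.C_injective
  have hU : ∀ i l, evp (hx i) (hy i) (tub F τ s l) ≠ 0 :=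
    fun i l => hevp F (hx i) (hy i) h0 h1 hs2 l
  refine ⟨HK F, inferInstance, hchar,
    fun i => evp (hx i) (hy i) (tub F τ s 1) / evp (hx i) (hy i) (tub F τ s 0),
    fun i => evp (hx i) (hy i) (tub F τ s 2) / evp (hx i) (hy i) (tub F τ s 0),
    fun i => div_ne_zero (hU i 1) (hU i 0), fun i => div_ne_zero (hU i 2) (hU i 0), ?_⟩
  intro f hf hLM
  by_contra hne
  have hf2 : ∀ m ∈ f.support, 0 ≤ m.1 ∧ 0 ≤ m.2 ∧ m.1 + δ * m.2 ≤ δ * (d : ℤ) :=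
    fun m hm => hf hm
  have hf' : ∀ m ∈ f.support, 0 ≤ m.1 ∧ 0 ≤ m.2 ∧ m.1 + m.2 ≤ ((δ * d : ℕ) : ℤ) := by
    intro m hm
    obtain ⟨a1, a2, a3⟩ := hf2 m hm
    refine ⟨a1, a2, ?_⟩
    have a4 : m.2 ≤ δ * m.2 := by
      have : (1 : ℤ) ≤ δ := by exact_mod_cast (by omega : 1 ≤ δ)
      nlinarith
    push_cast
    linarith
  obtain ⟨a, ha, hb⟩ := hlead F hδ h0 h1 hf2 hne hs1
  have h2 : ((ev (tub F τ s) (hom (δ * d) f)).coeff a).coeff = 0 := by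
    apply hE
    · intro m hm
      have hm' : cf (ev (tub F τ s) (hom (δ * d) f)) a m.1 m.2 ≠ 0 := by
        have := Finsupp.mem_support_iff.1 hm
        exact this
      obtain ⟨h3, h4, h5⟩ := hb m.1 m.2 hm'
      refine ⟨h3, ?_, ?_⟩
      · push_cast
        linarith
      · push_cast
        linarith
    · intro i
      exact LM_transfer (hx i) (hy i) (hU i) hf' (hLM i) a
  apply ha
  ext m
  rw [h2]
  rfl

end Pool.Agent.TH889.ED
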